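import Pool.Agent.Helper74.UB.Goals1

/-!
# Packet UB-FACE: a mod 2 cycle in a plane map bounds a set of faces
-/

namespace Pool.Agent.Helper42.UB

open Finset Equiv Helper28.VF Pool.Agent.Helper74.UB
open scoped Classical

/-- A function invariant under a permutation is constant on its cycles. -/
theorem const_sameCycle {D X : Type} (f : Perm D) (l : D → X) (h : ∀ d, l (f d) = l d)
    {d e : D} (hde : f.SameCycle d e) : l d = l e := by
  have hinv : ∀ d, l (f⁻¹ d) = l d := by
    intro d
    have := h (f⁻¹ d)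
    rw [show f (f⁻¹ d) = d from Equiv.apply_symm_apply f d] at this
    exact this.symm
  have hz : ∀ (n : ℕ) d, l ((f ^ n) d) = l d := by
    intro n
    induction n with
    | zero => intro d; simp
    | succ n ih =>
      intro d
      rw [pow_succ, Perm.mul_apply, ih, h]
  have hz' : ∀ (n : ℕ) d, l ((f⁻¹ ^ n) d) = l d := by
    intro n
    induction n with
    | zero => intro d; simp
    | succ n ih =>
      intro d
      rw [pow_succ, Perm.mul_apply, ih, hinv]
  obtain ⟨i, hi⟩ := hde
  rcases Int.eq_nat_or_neg i with ⟨n, rfl | rfl⟩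
  · rw [zpow_natCast] at hi
    rw [← hi, hz]
  · rw [zpow_neg, zpow_natCast, ← inv_pow] at hi
    rw [← hi, hz']

/-- Packet FACE. -/
theorem face : StmtFace := by
  intro D V E F _ _ _ _ M m hm hv
  have h2 : ∀ x : ZMod 2, x + x = 0 := fun x => CharTwo.add_self_eq_zero x
  obtain ⟨l, hs, ht⟩ := Helper75.VF.stmtH1 D V E F M (ZMod 2) m m hv
    (fun d => by rw [hm d]; exact h2 _)
    (fun f => Finset.sum_eq_zero fun d _ => by rw [hm d]; exact h2 _)
  refine ⟨l, ?_, ?_⟩
  · intro d e hde
    rw [M.fc_iff] at hde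
    refine const_sameCycle (M.σ * M.α) l ?_ hde
    intro c
    rw [Perm.mul_apply, hs, ht, hm, add_assoc, h2, add_zero]
  · intro d
    rw [ht, ← add_assoc, h2, zero_add]

end Pool.Agent.Helper42.UB
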